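import Pool.Agent.Q11.TF.Asm4
import Pool.Agent.Q11.TF.CliqueA
import Pool.Agent.Q11.TF.CoverA
import Pool.Agent.Q11.TF.CliqueB
import Pool.Agent.Q11.TF.CoverB
import Pool.Agent.Q11.TF.CliqueC
import Pool.Agent.Q11.TF.CoverC
import Pool.Agent.Q11.TF.SmallC
import Pool.Agent.Q11.TF.CliqueD
import Pool.Agent.Q11.TF.CoverD
import Pool.Agent.Q11.TF.SmallD
import Pool.Agent.Q11.TF.Charge
import Pool.Agent.Q11.TF.Count
import Pool.Agent.Q11.TF.Two
import Pool.Agent.Q11.TF.TwoLow
import Pool.Agent.Q11.TF.Lat
import Pool.Agent.Q11.TF.Iso

/-!
# The complexity of transfer systems of cyclic groups of order p^n q^m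

Full positive answer to the question of problem MP_0ca1b9_co.

The upper bound: a minimal basis can be changed into a strong set of pairs of the same size
(two different pairs K < H and K' < H' with K ≤ K' and H ≤ H' satisfy H ≤ K'), strong sets are
antichain-like families of quadruples (a, b, x, y), and explicit partitions of all quadruples into
cliques, each of which meets the middle rank in exactly one quadruple, bound their size by the
number of quadruples of middle rank.
-/

namespace Pool.Agent.Results.MP_0ca1b9_co.Complexity

open Pool.Agent.Q11.TF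

universe u

/-- For distinct primes p and q and n ≥ m ≥ 2 the complexity of the cyclic group of order
p^n q^m, the greatest size of a minimal basis of a transfer system, is F n m. -/
theorem result (p q n m : ℕ) (hp : p.Prime) (hq : q.Prime) (hpq : p ≠ q) (hm : 2 ≤ m)
    (hmn : m ≤ n) (G : Type u) [Group G] [IsCyclic G] (hG : Nat.card G = p ^ n * q ^ m) :
    IsGreatest {k : ℕ | ∃ (T : Subgroup G → Subgroup G → Prop)
      (S : Set (Subgroup G × Subgroup G)), IsTransferSystem T ∧ IsMinimalBasis S T ∧
        S.ncard = k} (F n m) :=
  final latUp latLow iso comm p q n m hp hq hpq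
    (grid cliqueA coverA centralA cliqueB coverB cliqueC coverC centralC mergeC repC
      cliqueD coverD centralD mergeD repD charge countOdd countEven two twoLow n m hm hmn)
    G hG

end Pool.Agent.Results.MP_0ca1b9_co.Complexity
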